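import Mathlib

/-!
# The lamplighter group and its actions on `Fˣ × F`

`L` is the group of the pairs `(k, f)`, `k` an integer and `f` a Laurent polynomial over `𝔽₂`, with the
product `(k, f) (l, g) = (k + l, f + T^k g)`: the lamplighter group, generated by `a = (0, 1)` and
`t = (1, 0)`.  For a finite field `F` of characteristic two it acts on `Fˣ × F` by
`(k, f) (θ, x) = (θ, θ^k x + f(θ))`.  An element `g ≠ 1` of word length at most `n` has at most
`(2 n + 1) |F|` fixed points, so `|F| ~ n²` gives faithful approximations of degree `O(n⁴)`.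
-/

set_option autoImplicit false

namespace Pool.Agent.Run7.h556.SP

open Polynomial LaurentPolynomial

/-- the lamplighter group -/
@[ext] structure L where
  k : ℤ
  f : LaurentPolynomial (ZMod 2)

namespace L

noncomputable instance : Mul L := ⟨fun x y => ⟨x.k + y.k, x.f + T x.k * y.f⟩⟩
noncomputable instance : One L := ⟨⟨0, 0⟩⟩
noncomputable instance : Inv L := ⟨fun x => ⟨-x.k, -(T (-x.k) * x.f)⟩⟩

@[simp] lemma mul_k (x y : L) : (x * y).k = x.k + y.k := rfl
@[simp] lemma mul_f (x y : L) : (x * y).f = x.f + T x.k * y.f := rfl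
@[simp] lemma one_k : (1 : L).k = 0 := rfl
@[simp] lemma one_f : (1 : L).f = 0 := rfl
@[simp] lemma inv_k (x : L) : (x⁻¹).k = -x.k := rfl
@[simp] lemma inv_f (x : L) : (x⁻¹).f = -(T (-x.k) * x.f) := rfl

noncomputable instance : Group L :=
  Group.ofLeftAxioms
    (fun x y z => by
      ext1
      · simp [add_assoc]
      · simp only [mul_f, mul_k, T_add]; ring)
    (fun x => by
      ext1
      · simp
      · simp)
    (fun x => by
      ext1
      · simp
      · simp)

/-- lamp at the origin -/
noncomputable def a : L := ⟨0, 1⟩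
/-- translation -/
noncomputable def t : L := ⟨1, 0⟩

lemma zpow_t (n : ℤ) : (t ^ n) = ⟨n, 0⟩ := by
  induction n with
  | zero => rfl
  | succ n ih => rw [zpow_add_one, ih]; ext1 <;> simp [t]
  | pred n ih => rw [zpow_sub_one, ih]; ext1 <;> simp [t, sub_eq_add_neg]

lemma add_lamps (f g : LaurentPolynomial (ZMod 2)) : (⟨0, f + g⟩ : L) = ⟨0, f⟩ * ⟨0, g⟩ := by
  ext1 <;> simp

lemma lamp_T (n : ℤ) : (⟨0, T n⟩ : L) = t ^ n * a * (t ^ n)⁻¹ := by
  rw [zpow_t]; ext1 <;> simp [a]

end L

open L

/-- the generators -/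
noncomputable def gens : Finset L := by classical exact {a, t}

lemma mem_gens (x : L) : x ∈ gens ↔ x = a ∨ x = t := by
  classical
  simp [gens]

lemma closure_gens : Subgroup.closure (gens : Set L) = ⊤ := by
  have ha : a ∈ Subgroup.closure (gens : Set L) :=
    Subgroup.subset_closure (by simp [mem_gens])
  have ht : t ∈ Subgroup.closure (gens : Set L) :=
    Subgroup.subset_closure (by simp [mem_gens])
  have hT : ∀ n : ℤ, (⟨0, T n⟩ : L) ∈ Subgroup.closure (gens : Set L) := fun n => by
    rw [lamp_T]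
    exact mul_mem (mul_mem (zpow_mem ht n) ha) (inv_mem (zpow_mem ht n))
  have hf : ∀ f : LaurentPolynomial (ZMod 2), (⟨0, f⟩ : L) ∈ Subgroup.closure (gens : Set L) := by
    intro f
    induction f using LaurentPolynomial.induction_on' with
    | add p q hp hq => rw [add_lamps]; exact mul_mem hp hq
    | C_mul_T n c =>
      have h2 : c = 0 ∨ c = 1 := by
        fin_cases c
        · left; rfl
        · right; rfl
      rcases h2 with rfl | rfl
      · have : (⟨0, LaurentPolynomial.C 0 * T n⟩ : L) = 1 := by ext1 <;> simp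
        rw [this]; exact one_mem _
      · rw [map_one, one_mul]; exact hT n
  rw [eq_top_iff]
  rintro ⟨k, f⟩ -
  have : (⟨k, f⟩ : L) = ⟨0, f⟩ * t ^ k := by
    rw [zpow_t]; ext1 <;> simp
  rw [this]
  exact mul_mem (hf f) (zpow_mem ht k)

/-- the ball of radius `n` -/
def Ball (n : ℕ) (g : L) : Prop :=
  ∃ l : List L, l.length ≤ n ∧ (∀ x ∈ l, x ∈ gens ∨ x⁻¹ ∈ gens) ∧ l.prod = g

lemma letter {x : L} (hx : x ∈ gens ∨ x⁻¹ ∈ gens) : x = a ∨ x = a⁻¹ ∨ x = t ∨ x = t⁻¹ := by
  rcases hx with hx | hx
  · rcases (mem_gens x).1 hx with h | h <;> simp [h]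
  · rcases (mem_gens _).1 hx with h | h
    · right; left; rw [← h, inv_inv]
    · right; right; right; rw [← h, inv_inv]

lemma word_bound (l : List L) (hl : ∀ x ∈ l, x ∈ gens ∨ x⁻¹ ∈ gens) :
    l.prod.k.natAbs ≤ l.length ∧ ∃ p : (ZMod 2)[X], p.natDegree ≤ 2 * l.length ∧
      T (l.length : ℤ) * l.prod.f = toLaurent p := by
  induction l with
  | nil => exact ⟨by simp, 0, by simp, by simp⟩
  | cons x l ih =>
    obtain ⟨hk, p, hp, hf⟩ := ih (fun y hy => hl y (List.mem_cons_of_mem _ hy))
    have hx := letter (hl x List.mem_cons_self)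
    set m := l.length with hm
    have hlen : (x :: l).length = m + 1 := by simp [hm]
    rw [hlen, List.prod_cons]
    have hT : (T ((m + 1 : ℕ) : ℤ) : LaurentPolynomial (ZMod 2)) = T (1 : ℤ) * T (m : ℤ) := by
      rw [← T_add]; congr 1; push_cast; ring
    have hX : toLaurent (X * p) = T (1 : ℤ) * (T (m : ℤ) * l.prod.f) := by
      rw [map_mul, toLaurent_X, hf]
    have hXm : toLaurent (X ^ (m + 1) : (ZMod 2)[X]) = T ((m + 1 : ℕ) : ℤ) := toLaurent_X_pow _
    have hd1 : (X * p).natDegree ≤ 2 * m + 1 := by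
      refine le_trans natDegree_mul_le ?_
      have := natDegree_X_le (R := ZMod 2)
      omega
    have hd2 : (X ^ (m + 1) : (ZMod 2)[X]).natDegree ≤ m + 1 := natDegree_X_pow_le _
    rcases hx with rfl | rfl | rfl | rfl
    · refine ⟨by simp [a]; omega, X ^ (m + 1) + X * p, ?_, ?_⟩
      · refine le_trans (natDegree_add_le _ _) (max_le ?_ ?_) <;> omega
      · rw [map_add, hX, hXm, mul_f, a]
        simp only [T_zero, one_mul, mul_add, mul_one]
        rw [hT]; ring
    · refine ⟨by simp [a]; omega, -X ^ (m + 1) + X * p, ?_, ?_⟩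
      · refine le_trans (natDegree_add_le _ _) (max_le ?_ ?_)
        · rw [natDegree_neg]; omega
        · omega
      · rw [map_add, hX, map_neg, hXm, mul_f, a]
        simp only [inv_f, inv_k, neg_zero, T_zero, one_mul, mul_add, mul_one]
        rw [hT]; ring
    · refine ⟨by simp [t]; omega, X * (X * p), ?_, ?_⟩
      · refine le_trans natDegree_mul_le ?_
        have := natDegree_X_le (R := ZMod 2)
        omega
      · rw [map_mul, hX, toLaurent_X, mul_f, t]
        rw [hT]; ring
    · refine ⟨by simp [t]; omega, p, by omega, ?_⟩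
      · rw [← hf, mul_f, t]
        simp only [inv_f, inv_k, mul_zero, neg_zero, zero_add]
        rw [← mul_assoc, ← T_add]; congr 2; push_cast; ring

lemma ball_bound {n : ℕ} {g : L} (hg : Ball n g) :
    g.k.natAbs ≤ n ∧ ∃ p : (ZMod 2)[X], p.natDegree ≤ 2 * n ∧
      T (n : ℤ) * g.f = toLaurent p := by
  obtain ⟨l, hl, hx, rfl⟩ := hg
  obtain ⟨hk, p, hp, hf⟩ := word_bound l hx
  refine ⟨hk.trans hl, X ^ (n - l.length) * p, ?_, ?_⟩
  · refine le_trans natDegree_mul_le ?_
    have := natDegree_X_pow_le (R := ZMod 2) (n - l.length)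
    omega
  · rw [map_mul, toLaurent_X_pow, ← hf, ← mul_assoc, ← T_add]
    congr 2
    omega

/-! ### the action -/

section act

set_option linter.unusedSectionVars false
variable (F : Type) [Field F] [Fintype F] [DecidableEq F] [Algebra (ZMod 2) F]

/-- evaluation at a unit -/
noncomputable def ev (θ : Fˣ) : LaurentPolynomial (ZMod 2) →+* F :=
  LaurentPolynomial.eval₂ (algebraMap (ZMod 2) F) θ

lemma ev_T (θ : Fˣ) (n : ℤ) : ev F θ (T n) = ((θ ^ n : Fˣ) : F) := by
  rw [ev, LaurentPolynomial.eval₂_T]

noncomputable instance actInst : MulAction L (Fˣ × F) where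
  smul g p := (p.1, ((p.1 ^ g.k : Fˣ) : F) * p.2 + ev F p.1 g.f)
  one_smul p := by
    show (p.1, ((p.1 ^ (1 : L).k : Fˣ) : F) * p.2 + ev F p.1 (1 : L).f) = p
    simp
  mul_smul g h p := by
    show (p.1, ((p.1 ^ (g * h).k : Fˣ) : F) * p.2 + ev F p.1 (g * h).f) =
      (p.1, ((p.1 ^ g.k : Fˣ) : F) * (((p.1 ^ h.k : Fˣ) : F) * p.2 + ev F p.1 h.f) + ev F p.1 g.f)
    rw [mul_k, mul_f, map_add, map_mul, ev_T, zpow_add]
    congr 1
    push_cast
    ring

lemma smul_def (g : L) (p : Fˣ × F) :
    g • p = (p.1, ((p.1 ^ g.k : Fˣ) : F) * p.2 + ev F p.1 g.f) := rfl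

/-- the bad parameters of `g` -/
noncomputable def bad (g : L) : Finset Fˣ :=
  Finset.univ.filter fun θ => θ ^ g.k = 1 ∧ ev F θ g.f = 0

lemma card_bad {n : ℕ} {g : L} (hg : Ball n g) (h1 : g ≠ 1) : (bad F g).card ≤ 2 * n := by
  classical
  obtain ⟨hk, p, hp, hf⟩ := ball_bound hg
  by_cases hk0 : g.k = 0
  · have hf0 : g.f ≠ 0 := fun h => h1 (by ext1 <;> simp [hk0, h])
    have hp0 : p ≠ 0 := by
      intro h
      rw [h, map_zero] at hf
      apply hf0
      have : T (-(n : ℤ)) * (T (n : ℤ) * g.f) = 0 := by rw [hf, mul_zero]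
      rwa [← mul_assoc, ← T_add, neg_add_cancel, T_zero, one_mul] at this
    have hp1 : p.map (algebraMap (ZMod 2) F) ≠ 0 :=
      (Polynomial.map_ne_zero_iff (algebraMap (ZMod 2) F).injective).2 hp0
    have hsub : (bad F g).card ≤ (p.map (algebraMap (ZMod 2) F)).roots.toFinset.card := by
      refine Finset.card_le_card_of_injOn (fun θ : Fˣ => (θ : F)) ?_ ?_
      · intro θ hθ
        have hθ' := (Finset.mem_filter.1 (Finset.mem_coe.1 hθ)).2.2
        simp only [Finset.mem_coe, Multiset.mem_toFinset]
        rw [mem_roots hp1, IsRoot.def, eval_map]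
        have h3 : ev F θ (toLaurent p) = 0 := by rw [← hf, map_mul, hθ', mul_zero]
        rw [ev, LaurentPolynomial.eval₂_toLaurent] at h3
        exact h3
      · intro x _ y _ hxy
        exact Units.ext hxy
    refine hsub.trans ?_
    refine (Multiset.toFinset_card_le _).trans ?_
    refine (card_roots' _).trans ?_
    exact (natDegree_map_le).trans hp
  · have hpos : 0 < g.k.natAbs := Int.natAbs_pos.2 hk0
    have h2 : (bad F g).card ≤ (Finset.univ.filter fun θ : Fˣ => θ ^ g.k.natAbs = 1).card := by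
      apply Finset.card_le_card
      intro θ hθ
      have := (Finset.mem_filter.1 hθ).2.1
      simp only [Finset.mem_filter, Finset.mem_univ, true_and]
      exact pow_natAbs_eq_one.2 this
    have h3 := IsCyclic.card_pow_eq_one_le (α := Fˣ) hpos
    omega

/-- number of fixed points -/
lemma card_fix {n : ℕ} {g : L} (hg : Ball n g) (h1 : g ≠ 1) :
    (Finset.univ.filter fun p : Fˣ × F => g • p = p).card ≤ (2 * n + 1) * Fintype.card F := by
  classical
  have hb := card_bad F hg h1
  have hsub : (Finset.univ.filter fun p : Fˣ × F => g • p = p) ⊆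
      (bad F g ×ˢ (Finset.univ : Finset F)) ∪
        (Finset.univ : Finset Fˣ).image
          (fun θ => (θ, -(ev F θ g.f) / (((θ ^ g.k : Fˣ) : F) - 1))) := by
    rintro ⟨θ, x⟩ hp
    have hp' := (Finset.mem_filter.1 hp).2
    rw [smul_def] at hp'
    have hx : ((θ ^ g.k : Fˣ) : F) * x + ev F θ g.f = x := congrArg Prod.snd hp'
    rw [Finset.mem_union]
    by_cases hθ : θ ^ g.k = 1
    · left
      rw [hθ] at hx
      have : ev F θ g.f = 0 := by
        have h4 : (1 : F) * x + ev F θ g.f = x := by simpa using hx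
        linear_combination h4
      simp [bad, hθ, this]
    · right
      rw [Finset.mem_image]
      refine ⟨θ, Finset.mem_univ _, ?_⟩
      have hne : ((θ ^ g.k : Fˣ) : F) - 1 ≠ 0 := by
        intro h
        apply hθ
        ext
        simpa using sub_eq_zero.1 h
      congr 1
      rw [div_eq_iff hne]
      linear_combination (-1 : F) * hx
  refine (Finset.card_le_card hsub).trans ?_
  refine (Finset.card_union_le _ _).trans ?_
  have h5 : (bad F g ×ˢ (Finset.univ : Finset F)).card = (bad F g).card * Fintype.card F := by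
    rw [Finset.card_product, Finset.card_univ]
  have h6 : ((Finset.univ : Finset Fˣ).image
      (fun θ => (θ, -(ev F θ g.f) / (((θ ^ g.k : Fˣ) : F) - 1)))).card ≤ Fintype.card F := by
    refine Finset.card_image_le.trans ?_
    rw [Finset.card_univ, Fintype.card_units]
    omega
  rw [h5]
  calc (bad F g).card * Fintype.card F + _ ≤ 2 * n * Fintype.card F + Fintype.card F :=
        add_le_add (Nat.mul_le_mul_right _ hb) h6
    _ = (2 * n + 1) * Fintype.card F := by ring

end act

/-- **Approximations of polynomial degree.** -/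
theorem approx (N : ℕ) : ∃ d : ℕ, 0 < d ∧ d ≤ 16 * (N + 1) ^ 4 ∧
    ∃ φ : L → Equiv.Perm (Fin d), φ 1 = 1 ∧ (∀ g h, φ (g * h) = φ g * φ h) ∧
      ∀ g : L, Ball N g → g ≠ 1 → 1 - 1 / (N : ℝ) ≤
        ((Finset.univ.filter (fun i : Fin d => φ g i ≠ i)).card : ℝ) / (d : ℝ) := by
  classical
  set M := 2 * N ^ 2 + N + 1 with hM
  set s := Nat.log 2 M + 1 with hs
  have hs0 : s ≠ 0 := by omega
  have hM0 : M ≠ 0 := by omega
  let F := GaloisField 2 s
  have : Finite F := inferInstance
  let _ : Fintype F := Fintype.ofFinite F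
  have hq : Fintype.card F = 2 ^ s := by
    rw [← Nat.card_eq_fintype_card]; exact GaloisField.card 2 s hs0
  have hq1 : M < Fintype.card F := by
    rw [hq]; exact Nat.lt_pow_succ_log_self (by norm_num) M
  have hq2 : Fintype.card F ≤ 2 * M := by
    rw [hq, hs, pow_succ]
    have := Nat.pow_log_le_self 2 hM0
    omega
  set q := Fintype.card F with hqdef
  have hd : Fintype.card (Fˣ × F) = (q - 1) * q := by
    rw [Fintype.card_prod, Fintype.card_units]
  refine ⟨Fintype.card (Fˣ × F), ?_, ?_, ?_⟩
  · rw [hd]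
    apply Nat.mul_pos <;> omega
  · rw [hd]
    have h1 : q ≤ 4 * (N + 1) ^ 2 := by
      have : 2 * M ≤ 4 * (N + 1) ^ 2 := by rw [hM]; nlinarith
      omega
    calc (q - 1) * q ≤ q * q := Nat.mul_le_mul_right _ (by omega)
      _ ≤ (4 * (N + 1) ^ 2) * (4 * (N + 1) ^ 2) := Nat.mul_le_mul h1 h1
      _ = 16 * (N + 1) ^ 4 := by ring
  · let e : (Fˣ × F) ≃ Fin (Fintype.card (Fˣ × F)) := Fintype.equivFin _
    let φ : L → Equiv.Perm (Fin (Fintype.card (Fˣ × F))) := fun g =>
      e.permCongr (MulAction.toPermHom L (Fˣ × F) g)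
    have hφ : ∀ g i, φ g i = e (g • e.symm i) := fun g i => rfl
    refine ⟨φ, ?_, ?_, ?_⟩
    · ext i; rw [hφ]; simp
    · intro g h
      ext i
      rw [Equiv.Perm.mul_apply, hφ, hφ, hφ, Equiv.symm_apply_apply, mul_smul]
    · intro g hg h1
      have hfix := card_fix F hg h1
      have hcard : (Finset.univ.filter (fun i => φ g i = i)).card =
          (Finset.univ.filter fun p : Fˣ × F => g • p = p).card := by
        symm
        refine Finset.card_bij (fun p _ => e p) ?_ ?_ ?_
        · intro p hp
          simp only [Finset.mem_filter, Finset.mem_univ, true_and] at hp ⊢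
          rw [hφ, Equiv.symm_apply_apply, hp]
        · intro p _ p' _ h
          exact e.injective h
        · intro i hi
          simp only [Finset.mem_filter, Finset.mem_univ, true_and] at hi
          refine ⟨e.symm i, ?_, by simp⟩
          simp only [Finset.mem_filter, Finset.mem_univ, true_and]
          rw [hφ] at hi
          rw [Equiv.eq_symm_apply]
          exact hi
      have hsplit : (Finset.univ.filter (fun i => φ g i = i)).card +
          (Finset.univ.filter (fun i => φ g i ≠ i)).card = Fintype.card (Fˣ × F) := by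
        rw [Finset.card_filter_add_card_filter_not, Finset.card_univ, Fintype.card_fin]
      have hdpos : (0 : ℝ) < (Fintype.card (Fˣ × F) : ℝ) := by
        rw [hd]
        have : 0 < (q - 1) * q := by apply Nat.mul_pos <;> omega
        exact_mod_cast this
      rcases Nat.eq_zero_or_pos N with hN | hN
      · exfalso
        apply h1
        obtain ⟨l, hl, -, rfl⟩ := hg
        have : l = [] := by
          apply List.eq_nil_of_length_eq_zero; omega
        simp [this]
      · rw [le_div_iff₀ hdpos]
        have hN' : (0 : ℝ) < N := by exact_mod_cast hN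
        have hfixR : ((Finset.univ.filter (fun i => φ g i = i)).card : ℝ) ≤ (2 * N + 1) * q := by
          rw [hcard]; exact_mod_cast hfix
        have hsplitR : ((Finset.univ.filter (fun i => φ g i = i)).card : ℝ) +
          ((Finset.univ.filter (fun i => φ g i ≠ i)).card : ℝ) = (Fintype.card (Fˣ × F) : ℝ) := by
          exact_mod_cast hsplit
        have hdR : (Fintype.card (Fˣ × F) : ℝ) = (q - 1) * q := by
          rw [hd]; push_cast [Nat.cast_sub (show 1 ≤ q by omega)]; ring
        have hqR : (2 * (N : ℝ) ^ 2 + N + 1) + 1 ≤ q := by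
          have : M + 1 ≤ q := hq1
          rw [hM] at this
          exact_mod_cast this
        have hkey : (2 * (N : ℝ) + 1) * q ≤ 1 / (N : ℝ) * (Fintype.card (Fˣ × F) : ℝ) := by
          rw [hdR, one_div, ← div_eq_inv_mul, le_div_iff₀ hN']
          have hq0 : (0 : ℝ) ≤ q := by positivity
          nlinarith
        nlinarith

/-! ### growth -/

/-- the word of a list of bits -/
noncomputable def wd : List Bool → L
  | [] => 1
  | b :: l => (if b then a else 1) * t * wd l

/-- the polynomial of a list of bits -/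
noncomputable def pl : List Bool → (ZMod 2)[X]
  | [] => 0
  | b :: l => Polynomial.C (if b then 1 else 0) + X * pl l

lemma wd_f (l : List Bool) : (wd l).f = toLaurent (pl l) := by
  induction l with
  | nil => simp [wd, pl]
  | cons b l ih =>
    cases b
    · simp [wd, pl, ih, t]
    · simp [wd, pl, ih, t, a]

lemma pl_inj : ∀ l l' : List Bool, l.length = l'.length → pl l = pl l' → l = l'
  | [], [], _, _ => rfl
  | b :: l, b' :: l', hl, h => by
    have h0 := congrArg (fun p => Polynomial.coeff p 0) h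
    simp only [pl, Polynomial.coeff_add, Polynomial.coeff_C_zero, Polynomial.mul_coeff_zero,
      Polynomial.coeff_X_zero, zero_mul, add_zero] at h0
    have hb : b = b' := by
      cases b <;> cases b' <;> simp at h0 ⊢
    subst hb
    have h1 : pl l = pl l' := by
      simp only [pl] at h
      have h2 := add_left_cancel h
      exact mul_left_cancel₀ X_ne_zero h2
    rw [pl_inj l l' (by simpa using hl) h1]
  | [], _ :: _, hl, _ => by simp at hl
  | _ :: _, [], hl, _ => by simp at hl

lemma ball_mono {m n : ℕ} (h : m ≤ n) {g : L} (hg : Ball m g) : Ball n g := by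
  obtain ⟨l, hl, h1, h2⟩ := hg
  exact ⟨l, hl.trans h, h1, h2⟩

lemma ball_mul {m n : ℕ} {g h : L} (hg : Ball m g) (hh : Ball n h) : Ball (m + n) (g * h) := by
  obtain ⟨l, hl, h1, rfl⟩ := hg
  obtain ⟨l', hl', h1', rfl⟩ := hh
  refine ⟨l ++ l', by simp; omega, ?_, by simp⟩
  intro x hx
  rcases List.mem_append.1 hx with h | h
  · exact h1 x h
  · exact h1' x h

lemma ball_a : Ball 1 a := ⟨[a], by simp, by simp [mem_gens], by simp⟩
lemma ball_t : Ball 1 t := ⟨[t], by simp, by simp [mem_gens], by simp⟩
lemma ball_one (n : ℕ) : Ball n 1 := ⟨[], by simp, by simp, by simp⟩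

lemma ball_wd (l : List Bool) : Ball (2 * l.length) (wd l) := by
  induction l with
  | nil => exact ball_one _
  | cons b l ih =>
    have h1 : Ball 1 (if b then a else 1) := by
      cases b
      · simpa using ball_one 1
      · simpa using ball_a
    have := ball_mul (ball_mul h1 ball_t) ih
    refine ball_mono ?_ this
    simp; omega

lemma ball_finite (n : ℕ) : Finite {g : L // Ball n g} := by
  classical
  let A : Set L := {x | x ∈ gens ∨ x⁻¹ ∈ gens}
  have hA : A.Finite := by
    have : A ⊆ {a, a⁻¹, t, t⁻¹} := by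
      intro x hx
      rcases letter hx with h | h | h | h <;> simp [h]
    exact Set.Finite.subset (by simp) this
  have : Finite A := hA
  have hL : {l : List A | l.length ≤ n}.Finite := List.finite_length_le A n
  have himg : {g : L | Ball n g} ⊆ (fun l : List A => (l.map Subtype.val).prod) ''
      {l : List A | l.length ≤ n} := by
    rintro g ⟨l, hl, hx, rfl⟩
    refine ⟨l.pmap (fun x h => (⟨x, h⟩ : A)) hx, ?_, ?_⟩
    · simpa using hl
    · show ((l.pmap (fun x h => (⟨x, h⟩ : A)) hx).map Subtype.val).prod = l.prod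
      rw [List.map_pmap]
      simp
  exact (hL.image _).subset himg

lemma growth (m : ℕ) : 2 ^ m ≤ Nat.card {g : L // Ball (2 * m) g} := by
  classical
  have := ball_finite (2 * m)
  have h1 : Nat.card (Fin m → Bool) = 2 ^ m := by
    simp
  rw [← h1]
  refine Nat.card_le_card_of_injective
    (fun v : Fin m → Bool => (⟨wd (List.ofFn v), by simpa using ball_wd (List.ofFn v)⟩ :
      {g : L // Ball (2 * m) g})) ?_
  intro v v' h
  have h2 : wd (List.ofFn v) = wd (List.ofFn v') := congrArg Subtype.val h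
  have h3 := congrArg L.f h2
  rw [wd_f, wd_f] at h3
  have h4 := toLaurent_injective h3
  exact List.ofFn_injective (pl_inj _ _ (by simp) h4)

/-- exponential beats polynomial -/
lemma large (C : ℕ) (hC : 0 < C) : ∃ m : ℕ, C * (16 * (C * (2 * m) + 1) ^ 4) < 2 ^ m := by
  have h := tendsto_pow_const_div_const_pow_of_one_lt 4 (r := (2 : ℝ)) (by norm_num)
  have hpos : (0 : ℝ) < 1 / (C * 16 * 81 * C ^ 4) := by positivity
  have h1 := (h.eventually (gt_mem_nhds hpos)).and (Filter.eventually_ge_atTop 1)
  obtain ⟨m, hm, hm1⟩ := h1.exists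
  refine ⟨m, ?_⟩
  have h2 : (0 : ℝ) < 2 ^ m := by positivity
  have hCR : (1 : ℝ) ≤ C := by exact_mod_cast hC
  have hmR : (1 : ℝ) ≤ m := by exact_mod_cast hm1
  rw [div_lt_div_iff₀ h2 (by positivity), one_mul] at hm
  have h3 : ((C * (16 * (C * (2 * m) + 1) ^ 4) : ℕ) : ℝ) < ((2 ^ m : ℕ) : ℝ) := by
    push_cast
    have h4 : (C : ℝ) * (2 * m) + 1 ≤ 3 * C * m := by nlinarith
    have h5 : ((C : ℝ) * (2 * m) + 1) ^ 4 ≤ (3 * C * m) ^ 4 := by
      apply pow_le_pow_left₀ (by positivity) h4
    calc (C : ℝ) * (16 * (C * (2 * m) + 1) ^ 4) ≤ C * (16 * (3 * C * m) ^ 4) := by gcongr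
      _ = (m : ℝ) ^ 4 * (C * 16 * 81 * C ^ 4) := by ring
      _ < 2 ^ m := hm
  exact_mod_cast h3

end Pool.Agent.Run7.h556.SP
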